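import Pool.Agent.W805.LR.Stm

/-!
# LR-PA: a transposition merges or splits cycles (`S_merge`, `S_split`)
-/

set_option autoImplicit false
set_option linter.unusedSectionVars false

namespace Pool.Agent.W333.LR

open Finset Equiv Pool.Agent.W805.LR

section
variable {V : Type} [Fintype V] [DecidableEq V]

theorem exists_nat_pow {g : Perm V} {u v : V} (h : g.SameCycle u v) : ∃ n : ℕ, (g ^ n) u = v := by
  obtain ⟨i, _, hi⟩ := h.exists_pow_eq'
  exact ⟨i, hi⟩

theorem swap_mul_apply_of_ne {g : Perm V} {u w x : V} (h1 : g x ≠ u) (h2 : g x ≠ w) :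
    (swap u w * g) x = g x := by
  rw [Perm.mul_apply, swap_apply_of_ne_of_ne h1 h2]

/-- the cycle of `u` stays in the cycle of `u` when it does not contain `w` -/
theorem merge_left {g : Perm V} {u w : V} (h : ¬ g.SameCycle u w) {v : V}
    (hv : g.SameCycle u v) : (swap u w * g).SameCycle u v := by
  obtain ⟨n, rfl⟩ := exists_nat_pow hv
  clear hv
  induction n with
  | zero => simpa using Perm.SameCycle.refl _ _
  | succ n ih =>
    by_cases h1 : (g ^ (n + 1)) u = u
    · rw [h1]
    · have h2 : (g ^ (n + 1)) u ≠ w := by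
        intro h2
        exact h (h2 ▸ Perm.SameCycle.pow_right (Perm.SameCycle.refl g u))
      have e : (swap u w * g) ((g ^ n) u) = (g ^ (n + 1)) u := by
        rw [swap_mul_apply_of_ne]
        · rw [pow_succ', Perm.mul_apply]
        · rw [← Perm.mul_apply, ← pow_succ']; exact h1
        · rw [← Perm.mul_apply, ← pow_succ']; exact h2
      rw [← e]
      exact Perm.sameCycle_apply_right.2 ih

theorem merge_right {g : Perm V} {u w : V} (h : ¬ g.SameCycle u w) {v : V}
    (hv : g.SameCycle w v) : (swap u w * g).SameCycle w v := by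
  rw [swap_comm]
  exact merge_left (fun h' => h h'.symm) hv

theorem merge_uw {g : Perm V} {u w : V} (h : ¬ g.SameCycle u w) :
    (swap u w * g).SameCycle u w := by
  have h1 : (swap u w * g).SameCycle u (g⁻¹ u) :=
    merge_left h (Perm.sameCycle_symm_apply_right.2 (Perm.SameCycle.refl g u))
  have h2 : (swap u w * g) (g⁻¹ u) = w := by simp
  have h3 := Perm.sameCycle_apply_right.2 h1
  rwa [h2] at h3

/-- outside the two cycles nothing changes -/
theorem merge_out_aux {g g' : Perm V} {Q : V → Prop} (hQ : ∀ x, Q x → Q (g x))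
    (he : ∀ x, Q x → g' x = g x) {v z : V} (hv : Q v) (h : g'.SameCycle v z) :
    g.SameCycle v z ∧ Q z := by
  obtain ⟨n, rfl⟩ := exists_nat_pow h
  clear h
  induction n with
  | zero => exact ⟨by simpa using Perm.SameCycle.refl _ _, by simpa using hv⟩
  | succ n ih =>
    have e : (g' ^ (n + 1)) v = g ((g' ^ n) v) := by
      rw [pow_succ', Perm.mul_apply, he _ ih.2]
    rw [e]
    exact ⟨Perm.sameCycle_apply_right.2 ih.1, hQ _ ih.2⟩

theorem merge_out {g : Perm V} {u w : V} {v : V} (h1 : ¬ g.SameCycle u v)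
    (h2 : ¬ g.SameCycle w v) (z : V) :
    (swap u w * g).SameCycle v z ↔ g.SameCycle v z := by
  have hQ : ∀ x, (¬ g.SameCycle u x ∧ ¬ g.SameCycle w x) →
      (¬ g.SameCycle u (g x) ∧ ¬ g.SameCycle w (g x)) := by
    intro x hx
    simpa only [Perm.sameCycle_apply_right] using hx
  have he : ∀ x, (¬ g.SameCycle u x ∧ ¬ g.SameCycle w x) → (swap u w * g) x = g x := by
    intro x hx
    have hx' := hQ x hx
    apply swap_mul_apply_of_ne
    · intro e; rw [e] at hx'; exact hx'.1 (Perm.SameCycle.refl _ _)
    · intro e; rw [e] at hx'; exact hx'.2 (Perm.SameCycle.refl _ _)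
  constructor
  · intro h
    exact (merge_out_aux (Q := fun x => ¬ g.SameCycle u x ∧ ¬ g.SameCycle w x) hQ he ⟨h1, h2⟩ h).1
  · intro h
    exact (merge_out_aux (g := swap u w * g) (g' := g)
      (Q := fun x => ¬ g.SameCycle u x ∧ ¬ g.SameCycle w x)
      (fun x hx => by rw [he x hx]; exact hQ x hx) (fun x hx => (he x hx).symm) ⟨h1, h2⟩ h).1

/-- in the union of the two cycles everything is in one cycle -/
theorem merge_in {g : Perm V} {u w : V} (h : ¬ g.SameCycle u w) {v : V}
    (hv : g.SameCycle u v ∨ g.SameCycle w v) (z : V) :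
    (swap u w * g).SameCycle v z ↔ (g.SameCycle u z ∨ g.SameCycle w z) := by
  have key : ∀ x, (g.SameCycle u x ∨ g.SameCycle w x) → (swap u w * g).SameCycle u x := by
    intro x hx
    rcases hx with hx | hx
    · exact merge_left h hx
    · exact (merge_uw h).trans (merge_right h hx)
  constructor
  · intro hz
    by_contra hc
    push Not at hc
    have h3 : g.SameCycle z v := (merge_out hc.1 hc.2 v).1 hz.symm
    rcases hv with hv | hv
    · exact hc.1 (hv.trans h3.symm)
    · exact hc.2 (hv.trans h3.symm)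
  · intro hz
    exact (key v hv).symm.trans (key z hz)

theorem cnt_congr {P Q : V → Prop} (h : ∀ v, P v ↔ Q v) : cnt P = cnt Q := by
  have : P = Q := funext fun v => propext (h v)
  rw [this]

theorem cnt_or {P Q : V → Prop} (h : ∀ v, P v → ¬ Q v) : cnt (fun v => P v ∨ Q v) = cnt P + cnt Q := by
  classical
  unfold cnt
  rw [← Finset.sum_add_distrib]
  refine Finset.sum_congr rfl fun v _ => ?_
  by_cases hp : P v
  · have hq := h v hp
    simp [hp, hq]
  · by_cases hq : Q v
    · simp [hp, hq]
    · simp [hp, hq]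

theorem not_same_split {g : Perm V} {u w : V} (hne : u ≠ w) (h : g.SameCycle u w) :
    ¬ (swap u w * g).SameCycle u w := by
  classical
  have hex : ∃ n : ℕ, (g ^ n) u = w := exists_nat_pow h
  obtain ⟨k, hk, hmin⟩ : ∃ k : ℕ, (g ^ k) u = w ∧ ∀ i < k, (g ^ i) u ≠ w :=
    ⟨Nat.find hex, Nat.find_spec hex, fun i hi => Nat.find_min hex hi⟩
  have hk0 : k ≠ 0 := by
    rintro rfl
    exact hne (by simpa using hk)
  have hu : ∀ i, 0 < i → i < k → (g ^ i) u ≠ u := by
    intro i hi0 hik hiu
    apply hmin (k - i) (by omega)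
    have : (g ^ k) u = (g ^ (k - i)) ((g ^ i) u) := by
      rw [← Perm.mul_apply, ← pow_add]
      congr 2
      omega
    rw [hiu] at this
    rw [← this, hk]
  have hset : ∀ n : ℕ, ∃ i < k, ((swap u w * g) ^ n) u = (g ^ i) u := by
    intro n
    induction n with
    | zero => exact ⟨0, by omega, by simp⟩
    | succ n ih =>
      obtain ⟨i, hik, hi⟩ := ih
      have e : ((swap u w * g) ^ (n + 1)) u = swap u w ((g ^ (i + 1)) u) := by
        rw [pow_succ', Perm.mul_apply, hi, Perm.mul_apply, ← Perm.mul_apply g, ← pow_succ']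
      rcases Nat.lt_or_ge (i + 1) k with h1 | h1
      · refine ⟨i + 1, h1, ?_⟩
        rw [e, swap_apply_of_ne_of_ne (hu _ (by omega) h1) (hmin _ h1)]
      · have : i + 1 = k := by omega
        refine ⟨0, by omega, ?_⟩
        rw [e, this, hk, swap_apply_right]
        simp
  intro hc
  obtain ⟨n, hn⟩ := exists_nat_pow hc
  obtain ⟨i, hik, hi⟩ := hset n
  exact hmin i hik (by rw [← hi, hn])

end

theorem main_merge : S_merge := by
  intro V _ _ g u w h
  refine ⟨fun v hv => ?_, fun v h1 h2 => ?_, merge_uw h⟩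
  · unfold len
    rw [cnt_congr (merge_in h hv), cnt_or]
    intro z hz1 hz2
    exact h (hz1.trans hz2.symm)
  · unfold len
    exact cnt_congr (merge_out h1 h2)

theorem main_split : S_split := by
  intro V _ _ g u w hne h
  have h' : ¬ (swap u w * g).SameCycle u w := not_same_split hne h
  have hg : swap u w * (swap u w * g) = g := by
    rw [← mul_assoc, swap_mul_self, one_mul]
  have hin := fun z => merge_in h' (v := u) (Or.inl (Perm.SameCycle.refl _ _)) z
  rw [hg] at hin
  refine ⟨h', fun v hv z => ?_, ?_, fun v hv => (hin v).1 hv⟩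
  · have h1 : ¬ (swap u w * g).SameCycle u v := fun h1 => hv ((hin v).2 (Or.inl h1))
    have h2 : ¬ (swap u w * g).SameCycle w v := fun h2 => hv ((hin v).2 (Or.inr h2))
    have := merge_out h1 h2 z
    rw [hg] at this
    exact this.symm
  · unfold len
    rw [← cnt_or (fun z h1 h2 => h' (h1.trans h2.symm))]
    exact (cnt_congr hin).symm

end Pool.Agent.W333.LR
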