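import Pool.Agent.W805.LR.Stm

/-!
# LR-GE: blocks of the torus (`S_blocks`)
-/

set_option autoImplicit false
set_option linter.unusedSectionVars false

namespace Pool.Agent.W333.LR

open Finset Equiv Pool.Agent.W805.LR

/-- `valMinAbs` is the smallest representative -/
theorem valMinAbs_natAbs_le_of_int {L : ℕ} [NeZero L] (z : ZMod L) (k : ℤ) (h : (k : ZMod L) = z) :
    z.valMinAbs.natAbs ≤ k.natAbs := by
  apply ZMod.natAbs_min_of_le_div_two L
  · rw [ZMod.coe_valMinAbs, h]
  · exact ZMod.natAbs_valMinAbs_le z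

/-- one-dimensional count -/
theorem one_dim {L i : ℕ} [NeZero L] (hL : 2 * 2 ^ i ≤ L) (v : ZMod L) :
    (L : ℝ) / 2 ^ i / 2 ≤ ∑ u : ZMod L, if u.val * 2 ^ i / L = v.val * 2 ^ i / L then (1 : ℝ) else 0 := by
  classical
  have hL0 : 0 < L := NeZero.pos L
  have h2 : (0 : ℝ) < 2 ^ i := by positivity
  set m : ℕ := v.val * 2 ^ i / L with hm
  have hmlt : m < 2 ^ i := by
    rw [hm, Nat.div_lt_iff_lt_mul hL0, mul_comm]
    exact Nat.mul_lt_mul_of_pos_left (ZMod.val_lt v) (by positivity)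
  set A : ℕ := ⌈(m : ℝ) * L / 2 ^ i⌉₊ with hA
  set B : ℕ := ⌈((m : ℝ) + 1) * L / 2 ^ i⌉₊ with hB
  have hBL : B ≤ L := by
    rw [hB, Nat.ceil_le, div_le_iff₀ h2]
    have : ((m : ℝ) + 1) ≤ 2 ^ i := by exact_mod_cast hmlt
    nlinarith [(Nat.cast_nonneg L : (0 : ℝ) ≤ L)]
  have hAr : (A : ℝ) < (m : ℝ) * L / 2 ^ i + 1 := Nat.ceil_lt_add_one (by positivity)
  have hBr : ((m : ℝ) + 1) * L / 2 ^ i ≤ B := Nat.le_ceil _
  have hcard : (Finset.Ico A B).card ≤ (univ.filter fun u : ZMod L => u.val * 2 ^ i / L = m).card := by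
    refine Finset.card_le_card_of_injOn (fun X : ℕ => (X : ZMod L)) ?_ ?_
    · intro X hX
      have hX' := Finset.mem_Ico.1 (Finset.mem_coe.1 hX)
      have hXL : X < L := lt_of_lt_of_le hX'.2 hBL
      have hv : ((X : ℕ) : ZMod L).val = X := ZMod.val_natCast_of_lt hXL
      rw [Finset.mem_coe, Finset.mem_filter]
      refine ⟨Finset.mem_univ _, ?_⟩
      simp only [hv]
      have h1 : (m : ℝ) * L / 2 ^ i ≤ X := Nat.ceil_le.1 hX'.1
      have h3 : (X : ℝ) < ((m : ℝ) + 1) * L / 2 ^ i := Nat.lt_ceil.1 hX'.2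
      rw [div_le_iff₀ h2] at h1
      rw [lt_div_iff₀ h2] at h3
      rw [Nat.div_eq_iff hL0]
      constructor
      · exact_mod_cast h1
      · have : X * 2 ^ i < (m + 1) * L := by exact_mod_cast h3
        rw [Nat.add_mul, one_mul] at this
        omega
    · intro X hX X' hX' h
      have h1 : X < L := lt_of_lt_of_le (Finset.mem_Ico.1 (Finset.mem_coe.1 hX)).2 hBL
      have h3 : X' < L := lt_of_lt_of_le (Finset.mem_Ico.1 (Finset.mem_coe.1 hX')).2 hBL
      have := congrArg ZMod.val h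
      simpa only [ZMod.val_natCast_of_lt h1, ZMod.val_natCast_of_lt h3] using this
  have hAB : A ≤ B := Nat.ceil_mono (by
    apply div_le_div_of_nonneg_right _ h2.le
    nlinarith [(Nat.cast_nonneg L : (0 : ℝ) ≤ L)])
  rw [Nat.card_Ico] at hcard
  have hcard' : (B : ℝ) - A ≤ ((univ.filter fun u : ZMod L => u.val * 2 ^ i / L = m).card : ℝ) := by
    rw [← Nat.cast_sub hAB]
    exact_mod_cast hcard
  rw [Finset.sum_ite, Finset.sum_const_zero, add_zero, Finset.sum_const, nsmul_eq_mul, mul_one]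
  refine le_trans ?_ hcard'
  have h4 : (2 : ℝ) ≤ L / 2 ^ i := by
    rw [le_div_iff₀ h2]
    exact_mod_cast hL
  have h5 : ((m : ℝ) + 1) * L / 2 ^ i = (m : ℝ) * L / 2 ^ i + L / 2 ^ i := by ring
  linarith

/-- product structure of the number of points of a block -/
theorem cnt_prod {d L : ℕ} [NeZero L] (P : Fin d → ZMod L → Prop) [∀ a z, Decidable (P a z)] :
    cnt (fun u : Fin d → ZMod L => ∀ a, P a (u a)) = ∏ a, ∑ z : ZMod L, if P a z then (1 : ℝ) else 0 := by
  classical
  rw [Finset.prod_univ_sum]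
  unfold cnt
  rw [Fintype.piFinset_univ]
  refine Finset.sum_congr rfl fun u _ => ?_
  by_cases h : ∀ a, P a (u a)
  · rw [if_pos h]
    symm
    exact Finset.prod_eq_one fun a _ => if_pos (h a)
  · rw [if_neg h]
    symm
    push Not at h
    obtain ⟨a, ha⟩ := h
    exact Finset.prod_eq_zero (Finset.mem_univ a) (if_neg ha)

theorem tblk_eq_iff {d L i : ℕ} [NeZero L] (x y : Fin d → ZMod L) :
    tblk i x = tblk i y ↔ ∀ a, (x a).val * 2 ^ i / L = (y a).val * 2 ^ i / L := by
  unfold tblk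
  exact funext_iff

theorem main_blocks : S_blocks := by
  classical
  intro d L i _ hL
  have hL0 : 0 < L := NeZero.pos L
  have h2 : (0 : ℝ) < 2 ^ i := by positivity
  refine ⟨fun v => ?_, fun x y h => ?_, fun x y h => ?_, fun x y => ?_, fun x y h => ?_⟩
  · have e : (fun u : Fin d → ZMod L => tblk i u = tblk i v)
        = fun u : Fin d → ZMod L => ∀ a, (u a).val * 2 ^ i / L = (v a).val * 2 ^ i / L := by
      funext u
      exact propext (tblk_eq_iff u v)
    rw [e, cnt_prod (fun a z => z.val * 2 ^ i / L = (v a).val * 2 ^ i / L)]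
    calc ((L : ℝ) / 2 ^ i / 2) ^ d = ∏ _a : Fin d, ((L : ℝ) / 2 ^ i / 2) := by
          rw [Finset.prod_const, Finset.card_univ, Fintype.card_fin]
      _ ≤ _ := Finset.prod_le_prod (fun a _ => by positivity) (fun a _ => one_dim hL (v a))
  · rw [tblk_eq_iff] at h
    rw [le_div_iff₀ h2]
    obtain ⟨a, ha⟩ | h0 := (Finset.univ : Finset (Fin d)).eq_empty_or_nonempty.symm.imp
      (fun hne => Finset.exists_mem_eq_sup Finset.univ hne
        (fun a => (x a - y a).valMinAbs.natAbs)) id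
    · have e : tdist x y = (x a - y a).valMinAbs.natAbs := ha.2
      rw [e]
      have h3 : (x a - y a).valMinAbs.natAbs ≤ (((x a).val : ℤ) - ((y a).val : ℤ)).natAbs := by
        apply valMinAbs_natAbs_le_of_int
        push_cast
        rw [ZMod.natCast_zmod_val, ZMod.natCast_zmod_val]
      have h4 := h a
      have h5 : (((x a).val : ℤ) - ((y a).val : ℤ)).natAbs * 2 ^ i ≤ L := by
        have h6 := Nat.div_add_mod ((x a).val * 2 ^ i) L
        have h7 := Nat.div_add_mod ((y a).val * 2 ^ i) L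
        have h8 := Nat.mod_lt ((x a).val * 2 ^ i) hL0
        have h9 := Nat.mod_lt ((y a).val * 2 ^ i) hL0
        rw [← h4] at h7
        have h10 : (((x a).val : ℤ) - ((y a).val : ℤ)).natAbs * 2 ^ i
            = ((((x a).val * 2 ^ i : ℕ) : ℤ) - (((y a).val * 2 ^ i : ℕ) : ℤ)).natAbs := by
          have : ((((x a).val * 2 ^ i : ℕ) : ℤ) - (((y a).val * 2 ^ i : ℕ) : ℤ))
              = (((x a).val : ℤ) - ((y a).val : ℤ)) * ((2 ^ i : ℕ) : ℤ) := by push_cast; ring
          rw [this, Int.natAbs_mul, Int.natAbs_natCast]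
        rw [h10]
        generalize (x a).val * 2 ^ i = p at *
        generalize (y a).val * 2 ^ i = q at *
        generalize L * (p / L) = t at *
        omega
      have h9 : (x a - y a).valMinAbs.natAbs * 2 ^ i ≤ L :=
        le_trans (Nat.mul_le_mul_right _ h3) h5
      exact_mod_cast h9
    · have e : tdist x y = 0 := by
        unfold tdist
        rw [h0]
        rfl
      rw [e]
      push_cast
      simp
  · rw [tblk_eq_iff] at h ⊢
    intro a
    have key : ∀ X : ℕ, X * 2 ^ i / L = X * 2 ^ (i + 1) / L / 2 := by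
      intro X
      rw [Nat.div_div_eq_div_mul, pow_succ, ← mul_assoc, Nat.mul_div_mul_right _ _ (by norm_num)]
    rw [key, key, h a]
  · rw [tblk_eq_iff]
    intro a
    rw [pow_zero, mul_one, mul_one, Nat.div_eq_of_lt (ZMod.val_lt _), Nat.div_eq_of_lt (ZMod.val_lt _)]
  · obtain ⟨a, ha⟩ := Function.ne_iff.1 h
    have h1 : (x a - y a).valMinAbs.natAbs ≤ tdist x y :=
      Finset.le_sup (f := fun a => (x a - y a).valMinAbs.natAbs) (Finset.mem_univ a)
    refine le_trans ?_ h1
    rw [Nat.one_le_iff_ne_zero, ne_eq, Int.natAbs_eq_zero, ZMod.valMinAbs_eq_zero]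
    exact sub_ne_zero.2 ha

end Pool.Agent.W333.LR
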